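import Mathlib

set_option autoImplicit false

/-! Finite permutation quotients of the free group of rank two. -/

namespace Pool.Agent.H810R3.Onl

open Set

/-- free group on two generators -/
abbrev F := FreeGroup Bool

theorem finite_ball (n : ℕ) : {w : F | w.norm ≤ n}.Finite := by
  have h1 : {L : List (Bool × Bool) | L.length ≤ n}.Finite := List.finite_length_le _ n
  exact h1.preimage FreeGroup.toWord_injective.injOn

theorem exists_perm (n : ℕ) (s : F) : ∃ σ : Equiv.Perm {w : F // w.norm ≤ n},
    (∀ w, (s * w.1).norm ≤ n → (σ w).1 = s * w.1) ∧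
    (∀ w, (s⁻¹ * w.1).norm ≤ n → (σ⁻¹ w).1 = s⁻¹ * w.1) := by
  classical
  have : Finite {w : F // w.norm ≤ n} := (finite_ball n).to_subtype
  have := Fintype.ofFinite {w : F // w.norm ≤ n}
  let e : {w : {w : F // w.norm ≤ n} // (s * w.1).norm ≤ n} ≃
      {w : {w : F // w.norm ≤ n} // (s⁻¹ * w.1).norm ≤ n} :=
    { toFun := fun w => ⟨⟨s * w.1.1, w.2⟩, by simpa using w.1.2⟩
      invFun := fun w => ⟨⟨s⁻¹ * w.1.1, w.2⟩, by simpa using w.1.2⟩
      left_inv := fun w => by ext; simp
      right_inv := fun w => by ext; simp }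
  have h1 : ∀ w, (s * w.1).norm ≤ n → (e.extendSubtype w).1 = s * w.1 := fun w hw => by
    rw [Equiv.extendSubtype_apply_of_mem e w hw]
    rfl
  refine ⟨e.extendSubtype, h1, fun w hw => ?_⟩
  have h2 : e.extendSubtype ⟨s⁻¹ * w.1, hw⟩ = w := by
    apply Subtype.ext
    rw [h1 _ (by simpa using w.2)]
    simp
  have h3 : (e.extendSubtype)⁻¹ w = ⟨s⁻¹ * w.1, hw⟩ := by
    rw [Equiv.Perm.inv_eq_iff_eq]
    exact h2.symm
  rw [h3]

theorem exists_box (n : ℕ) : ∃ π : F →* Equiv.Perm F, (Set.range π).Finite ∧
    ∀ u : F, u.norm ≤ n → π u 1 = u := by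
  classical
  choose σ hσ1 hσ2 using fun b : Bool => exists_perm n (FreeGroup.of b)
  have : Finite {w : F // w.norm ≤ n} := (finite_ball n).to_subtype
  refine ⟨(Equiv.Perm.ofSubtype).comp (FreeGroup.lift σ), ?_, ?_⟩
  · refine (Set.finite_range (Equiv.Perm.ofSubtype (p := fun w : F => w.norm ≤ n))).subset ?_
    rintro _ ⟨u, rfl⟩
    exact ⟨_, rfl⟩
  · have key : ∀ (L : List (Bool × Bool)) (w : {w : F // w.norm ≤ n}), L.length + w.1.norm ≤ n →
        ((FreeGroup.lift σ (FreeGroup.mk L)) w).1 = FreeGroup.mk L * w.1 := by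
      intro L
      induction L with
      | nil =>
        intro w _
        have : (FreeGroup.mk [] : F) = 1 := rfl
        rw [this, map_one, one_mul]
        rfl
      | cons x L ih =>
        intro w hw
        rw [List.length_cons] at hw
        have e : (FreeGroup.mk (x :: L) : F) = FreeGroup.mk [x] * FreeGroup.mk L := by
          rw [FreeGroup.mul_mk]; rfl
        have hn1 : (FreeGroup.mk L * w.1 : F).norm ≤ L.length + w.1.norm :=
          (FreeGroup.norm_mul_le _ _).trans (Nat.add_le_add_right FreeGroup.norm_mk_le _)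
        have ih' := ih w (by omega)
        rw [e, map_mul, Equiv.Perm.mul_apply, mul_assoc, ← ih']
        set w' := (FreeGroup.lift σ (FreeGroup.mk L)) w with hw'
        have hn2 : w'.1.norm + 1 ≤ n := by rw [ih']; omega
        rcases x with ⟨b, _ | _⟩
        · have e1 : (FreeGroup.mk [(b, false)] : F) = (FreeGroup.of b)⁻¹ := rfl
          rw [e1, map_inv, FreeGroup.lift_apply_of]
          apply hσ2
          have := FreeGroup.norm_mul_le (FreeGroup.of b)⁻¹ w'.1
          rw [FreeGroup.norm_inv_eq, FreeGroup.norm_of] at this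
          omega
        · have e1 : (FreeGroup.mk [(b, true)] : F) = (FreeGroup.of b) := rfl
          rw [e1, FreeGroup.lift_apply_of]
          apply hσ1
          have := FreeGroup.norm_mul_le (FreeGroup.of b) w'.1
          rw [FreeGroup.norm_of] at this
          omega
    intro u hu
    have h1 : (1 : F).norm ≤ n := by rw [FreeGroup.norm_one]; exact Nat.zero_le n
    rw [MonoidHom.comp_apply, Equiv.Perm.ofSubtype_apply_of_mem (p := fun w : F => w.norm ≤ n) _ h1]
    have := key u.toWord ⟨1, h1⟩ (by
      rw [FreeGroup.norm_one]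
      exact hu)
    rw [FreeGroup.mk_toWord, mul_one] at this
    exact this

/-- first letter -/
def fl (u : F) : Option (Bool × Bool) := u.toWord.head?

theorem fl_mul_of (b : Bool) (u : F) (hu : fl u ≠ some (b, false)) :
    fl (FreeGroup.of b * u) = some (b, true) := by
  unfold fl at *
  rw [FreeGroup.toWord_mul, FreeGroup.toWord_of]
  show (FreeGroup.reduce ((b, true) :: u.toWord)).head? = _
  rw [FreeGroup.reduce.cons, FreeGroup.reduce_toWord]
  rcases h : u.toWord with _ | ⟨⟨b', ε⟩, L⟩
  · rfl
  · rw [h] at hu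
    simp only [List.head?_cons, ne_eq, Option.some.injEq, Prod.mk.injEq, not_and] at hu
    simp only
    rw [if_neg]
    · rfl
    · rintro ⟨h1, h2⟩
      apply hu h1.symm
      simpa using h2

end Pool.Agent.H810R3.Onl
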