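import Pool.Agent.H810R3.Onl.Space

set_option autoImplicit false

/-! The box space does not have property A. -/

namespace Pool.Agent.H810R3.Onl

open Set Filter Topology

theorem not_A : ¬ (∀ R : ℝ, 0 < R → ∀ ε : ℝ, 0 < ε →
        ∃ S : ℝ, ∃ A : XB → Set (XB × ℕ),
          (∀ x, (A x).Finite) ∧ (∀ x, (x, 0) ∈ A x) ∧
          (∀ x, ∀ w ∈ A x, dist w.1 x ≤ S) ∧
          ∀ x y, dist x y < R →
            ((symmDiff (A x) (A y)).ncard : ℝ) < ε * ((A x ∩ A y).ncard : ℝ)) := by
  classical
  intro hA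
  obtain ⟨S, A, hfin, h0, hS, hR⟩ := hA 2 two_pos (1/4) (by norm_num)
  obtain ⟨n, hn⟩ := exists_nat_gt (S + 1)
  have : Finite (qm n).range := (qm_finite n).to_subtype
  have : Fintype (qm n).range := Fintype.ofFinite _
  let pt : (qm n).range → XB := fun x => mkX n x.1 x.2
  let Af : (qm n).range → Finset (XB × ℕ) := fun x => (hfin (pt x)).toFinset
  have hAf : ∀ x, ((Af x : Finset (XB × ℕ)) : Set (XB × ℕ)) = A (pt x) := fun x =>
    (hfin (pt x)).coe_toFinset
  let rel : (qm n).range → XB × ℕ → Equiv.Perm F := fun x w => x.1⁻¹ * w.1.1.2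
  have hrel : ∀ x, ∀ w ∈ Af x, ∃ u : F, u.norm + 1 ≤ n ∧ qm n u = rel x w := by
    intro x w hw
    have hw' : w ∈ A (pt x) := by
      rw [← hAf]; exact hw
    have h1 := hS _ _ hw'
    rw [dist_comm, dist_XB] at h1
    have h3 : dN (pt x) w.1 + 1 < n := by
      have h2 : ((dN (pt x) w.1 : ℕ) : ℝ) + 1 < n := by linarith
      exact_mod_cast h2
    clear h1 hw hw'
    obtain ⟨g, hg⟩ := x
    obtain ⟨⟨⟨m, h⟩, hh⟩, k⟩ := w
    change dN ⟨(n, g), hg⟩ ⟨(m, h), hh⟩ + 1 < n at h3
    by_cases hmn : n = m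
    · subst hmn
      rw [dN_same] at h3
      obtain ⟨u, k1, k2⟩ := exists_ell (mul_mem (inv_mem hg) hh)
      exact ⟨u, by rw [k1]; exact h3.le, k2⟩
    · rw [dN_diff _ _ hmn] at h3
      have := lt_KC n
      omega
  let t : Bool → (qm n).range := fun b => ⟨qm n (FreeGroup.of b), ⟨_, rfl⟩⟩
  have key : ∀ (b : Bool) (x : (qm n).range),
      ((Af x).filter (fun w => ¬ fl (rel x w 1) = some (b, false))).card ≤
        ((Af (x * (t b)⁻¹)).filter (fun w => fl (rel (x * (t b)⁻¹) w 1) = some (b, true))).card +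
        (Af x \ Af (x * (t b)⁻¹)).card := by
    intro b x
    refine le_trans (Finset.card_le_card ?_) (Finset.card_union_le _ _)
    intro w hw
    rw [Finset.mem_filter] at hw
    rw [Finset.mem_union, Finset.mem_filter, Finset.mem_sdiff]
    by_cases hw' : w ∈ Af (x * (t b)⁻¹)
    · left
      refine ⟨hw', ?_⟩
      obtain ⟨u, k1, k2⟩ := hrel x w hw.1
      have e : rel (x * (t b)⁻¹) w = qm n (FreeGroup.of b * u) := by
        rw [map_mul, k2]
        show (x.1 * (qm n (FreeGroup.of b))⁻¹)⁻¹ * _ = qm n (FreeGroup.of b) * (x.1⁻¹ * _)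
        group
      have hnorm : (FreeGroup.of b * u).norm ≤ n := by
        have := FreeGroup.norm_mul_le (FreeGroup.of b) u
        rw [FreeGroup.norm_of] at this
        omega
      rw [e, qm_apply n _ hnorm]
      apply fl_mul_of
      have h4 := hw.2
      rw [← k2, qm_apply n u (by omega)] at h4
      exact h4
    · right
      exact ⟨hw.1, hw'⟩
  have hsd : ∀ (b : Bool) (x : (qm n).range),
      ((Af x \ Af (x * (t b)⁻¹)).card : ℝ) ≤ 1 / 4 * ((Af x).card : ℝ) := by
    intro b x
    have hd : dist (pt x) (pt (x * (t b)⁻¹)) < 2 := by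
      have h1 : dN (pt x) (pt (x * (t b)⁻¹)) ≤ 1 := by
        have e : dN (pt x) (pt (x * (t b)⁻¹)) = ell n (x.1⁻¹ * (x * (t b)⁻¹).1) :=
          dN_same x.2 (x * (t b)⁻¹).2
        rw [e]
        have e2 : x.1⁻¹ * (x * (t b)⁻¹).1 = qm n (FreeGroup.of b)⁻¹ := by
          rw [map_inv]
          show x.1⁻¹ * (x.1 * (qm n (FreeGroup.of b))⁻¹) = _
          group
        rw [e2]
        refine (ell_le n _).trans ?_
        rw [FreeGroup.norm_inv_eq, FreeGroup.norm_of]
      rw [dist_XB]
      have : ((dN (pt x) (pt (x * (t b)⁻¹)) : ℕ) : ℝ) ≤ 1 := by exact_mod_cast h1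
      linarith
    have h2 := hR _ _ hd
    have h3 : (Af x \ Af (x * (t b)⁻¹)).card ≤ (symmDiff (A (pt x)) (A (pt (x * (t b)⁻¹)))).ncard := by
      rw [← Set.ncard_coe_finset]
      refine Set.ncard_le_ncard ?_ ((hfin _).symmDiff (hfin _))
      rw [Finset.coe_sdiff, hAf, hAf]
      exact Set.subset_union_left
    have h4 : (A (pt x) ∩ A (pt (x * (t b)⁻¹))).ncard ≤ (Af x).card := by
      rw [← Set.ncard_coe_finset, hAf]
      exact Set.ncard_le_ncard Set.inter_subset_left (hfin _)
    have h3' : ((Af x \ Af (x * (t b)⁻¹)).card : ℝ) ≤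
        ((symmDiff (A (pt x)) (A (pt (x * (t b)⁻¹)))).ncard : ℝ) := by exact_mod_cast h3
    have h4' : ((A (pt x) ∩ A (pt (x * (t b)⁻¹))).ncard : ℝ) ≤ ((Af x).card : ℝ) := by
      exact_mod_cast h4
    linarith
  let P : Option (Bool × Bool) → ℝ := fun o =>
    ∑ x : (qm n).range, (((Af x).filter (fun w => fl (rel x w 1) = o)).card : ℝ)
  let M : ℝ := ∑ x : (qm n).range, ((Af x).card : ℝ)
  have hM : M = ∑ o : Option (Bool × Bool), P o := by
    simp only [M, P]
    rw [Finset.sum_comm]
    refine Finset.sum_congr rfl fun x _ => ?_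
    have := Finset.card_eq_sum_card_fiberwise (s := Af x) (t := Finset.univ)
      (f := fun w => fl (rel x w 1)) (fun _ _ => by simp)
    rw [this]
    push_cast
    rfl
  have hMb : ∀ b : Bool, M ≤ P (some (b, false)) + P (some (b, true)) + 1 / 4 * M := by
    intro b
    have e1 : ∑ x : (qm n).range, (((Af (x * (t b)⁻¹)).filter
        (fun w => fl (rel (x * (t b)⁻¹) w 1) = some (b, true))).card : ℝ) = P (some (b, true)) :=
      Equiv.sum_comp (Equiv.mulRight (t b)⁻¹)
        (fun x => (((Af x).filter (fun w => fl (rel x w 1) = some (b, true))).card : ℝ))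
    have e2 : ∀ x : (qm n).range, ((Af x).card : ℝ) ≤
        (((Af x).filter (fun w => fl (rel x w 1) = some (b, false))).card : ℝ) +
        ((((Af (x * (t b)⁻¹)).filter (fun w => fl (rel (x * (t b)⁻¹) w 1) = some (b, true))).card : ℝ) +
        1 / 4 * ((Af x).card : ℝ)) := by
      intro x
      have k1 := Finset.card_filter_add_card_filter_not (s := Af x)
        (fun w => fl (rel x w 1) = some (b, false))
      have k2 : ((Af x).card : ℝ) =
          (((Af x).filter (fun w => fl (rel x w 1) = some (b, false))).card : ℝ) +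
          (((Af x).filter (fun w => ¬ fl (rel x w 1) = some (b, false))).card : ℝ) := by
        exact_mod_cast k1.symm
      have k3 : (((Af x).filter (fun w => ¬ fl (rel x w 1) = some (b, false))).card : ℝ) ≤
        (((Af (x * (t b)⁻¹)).filter (fun w => fl (rel (x * (t b)⁻¹) w 1) = some (b, true))).card : ℝ) +
        ((Af x \ Af (x * (t b)⁻¹)).card : ℝ) := by exact_mod_cast key b x
      have k4 := hsd b x
      linarith
    have e3 := Finset.sum_le_sum fun (x : (qm n).range) (_ : x ∈ Finset.univ) => e2 x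
    rw [Finset.sum_add_distrib, Finset.sum_add_distrib, e1, ← Finset.mul_sum] at e3
    have e4 : M ≤ P (some (b, false)) + (P (some (b, true)) + 1 / 4 * M) := e3
    linarith
  have hMpos : 0 < M := by
    refine Finset.sum_pos' (fun _ _ => Nat.cast_nonneg _) ⟨1, Finset.mem_univ _, ?_⟩
    have : (pt 1, 0) ∈ Af 1 := by
      rw [← Finset.mem_coe, hAf]
      exact h0 _
    exact_mod_cast Finset.card_pos.2 ⟨_, this⟩
  have hPn : 0 ≤ P none := Finset.sum_nonneg fun _ _ => Nat.cast_nonneg _
  rw [Fintype.sum_option, Fintype.sum_prod_type, Fintype.sum_bool, Fintype.sum_bool,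
    Fintype.sum_bool] at hM
  have h1 := hMb true
  have h2 := hMb false
  linarith

end Pool.Agent.H810R3.Onl
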