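import Mathlib

set_option autoImplicit false

/-! Operators on `L¹(ν; E)` over a countable discrete space nearly attain their norm on atoms. -/

namespace Pool.Agent.H810R3.Onl

open MeasureTheory Set Filter Topology
open scoped ENNReal symmDiff

variable {X : Type} [MeasurableSpace X] [DiscreteMeasurableSpace X] [Countable X]
  {E : Type} [NormedAddCommGroup E] [NormedSpace ℝ E]

theorem norm_ind (ν : Measure X) {s : Set X} (hs : MeasurableSet s) (h : ν s ≠ ⊤) (c : E) :
    ‖indicatorConstLp 1 hs h c‖ = ‖c‖ * ν.real s := by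
  rw [norm_indicatorConstLp one_ne_zero ENNReal.one_ne_top]
  simp

/-- bound on atoms implies bound on indicators of finite sets -/
theorem fin_bound (ν : Measure X) (hν : ∀ x : X, ν {x} ≠ ⊤) (T : Lp E 1 ν →L[ℝ] Lp E 1 ν) (C : ℝ)
    (hC : ∀ (x : X) (v : E), ‖T (indicatorConstLp 1 (measurableSet_singleton x) (hν x) v)‖ ≤
      C * ‖indicatorConstLp 1 (measurableSet_singleton x) (hν x) v‖) (v : E) (F : Finset X) :
    ∃ h : ν (F : Set X) ≠ ⊤, ‖T (indicatorConstLp 1 (MeasurableSet.of_discrete) h v)‖ ≤
      C * ‖indicatorConstLp 1 (MeasurableSet.of_discrete) h v‖ := by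
  classical
  induction F using Finset.induction_on with
  | empty =>
    refine ⟨by simp, ?_⟩
    have : indicatorConstLp (μ := ν) (s := ((∅ : Finset X) : Set X)) 1 MeasurableSet.of_discrete
      (by simp) v = 0 := by
      apply norm_eq_zero.1
      rw [norm_ind]
      simp
    rw [this]
    simp
  | insert a F ha ih =>
    obtain ⟨hF, ih⟩ := ih
    have e : ((insert a F : Finset X) : Set X) = {a} ∪ (F : Set X) := by
      simp
    have hd : Disjoint ({a} : Set X) (F : Set X) := by
      simpa using ha
    have hfin : ν ({a} ∪ (F : Set X)) ≠ ⊤ := by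
      have := hν a
      finiteness
    have h1 : ν ((insert a F : Finset X) : Set X) ≠ ⊤ := by rw [e]; exact hfin
    refine ⟨h1, ?_⟩
    have h2 : indicatorConstLp (μ := ν) 1 (MeasurableSet.of_discrete) h1 v =
        indicatorConstLp (μ := ν) 1 (measurableSet_singleton a) (hν a) v +
        indicatorConstLp (μ := ν) 1 (MeasurableSet.of_discrete (s := (F : Set X))) hF v := by
      rw [← indicatorConstLp_disjoint_union _ _ (hν a) hF hd v]
      congr 1
    have h3 : ‖indicatorConstLp (μ := ν) 1 (MeasurableSet.of_discrete) h1 v‖ =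
        ‖indicatorConstLp (μ := ν) 1 (measurableSet_singleton a) (hν a) v‖ +
        ‖indicatorConstLp (μ := ν) 1 (MeasurableSet.of_discrete (s := (F : Set X))) hF v‖ := by
      rw [norm_ind, norm_ind, norm_ind, e, measureReal_union hd MeasurableSet.of_discrete (hν a) hF]
      ring
    rw [h3, h2, map_add]
    refine (norm_add_le _ _).trans ?_
    rw [mul_add]
    exact add_le_add (hC a v) ih

theorem all_bound (ν : Measure X) (hν : ∀ x : X, ν {x} ≠ ⊤) (T : Lp E 1 ν →L[ℝ] Lp E 1 ν) (C : ℝ)
    (hC : ∀ (x : X) (v : E), ‖T (indicatorConstLp 1 (measurableSet_singleton x) (hν x) v)‖ ≤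
      C * ‖indicatorConstLp 1 (measurableSet_singleton x) (hν x) v‖) (g : Lp E 1 ν) :
    ‖T g‖ ≤ C * ‖g‖ := by
  classical
  have : Encodable X := Encodable.ofCountable X
  refine Lp.induction ENNReal.one_ne_top (motive := fun g : Lp E 1 ν => ‖T g‖ ≤ C * ‖g‖) ?_ ?_ ?_ g
  · intro v s hs hsfin
    rw [Lp.simpleFunc.coe_indicatorConst]
    -- approximate by finite sets
    let t : ℕ → Set X := fun n => s ∩ {x | Encodable.encode x < n}
    have htfin : ∀ n, (t n).Finite := by
      intro n
      refine Set.Finite.subset ?_ inter_subset_right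
      exact Set.Finite.preimage Encodable.encode_injective.injOn (Set.finite_lt_nat n)
    have hta : ∀ n, ν (t n) ≠ ⊤ := fun n => ((measure_mono inter_subset_left).trans_lt hsfin).ne
    have hb : ∀ n, ‖T (indicatorConstLp 1 (MeasurableSet.of_discrete (s := t n)) (hta n) v)‖ ≤
        C * ‖indicatorConstLp 1 (MeasurableSet.of_discrete (s := t n)) (hta n) v‖ := by
      intro n
      obtain ⟨h1, h2⟩ := fin_bound ν hν T C hC v (htfin n).toFinset
      have e : (((htfin n).toFinset : Finset X) : Set X) = t n := by simp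
      have h3 : indicatorConstLp (μ := ν) 1 (MeasurableSet.of_discrete (s := t n)) (hta n) v =
        indicatorConstLp (μ := ν) 1 MeasurableSet.of_discrete h1 v := by
        congr 1
        exact e.symm
      rw [h3]
      exact h2
    have hlim : Tendsto (fun n => indicatorConstLp (μ := ν) 1 (MeasurableSet.of_discrete (s := t n)) (hta n) v)
        atTop (𝓝 (indicatorConstLp 1 hs hsfin.ne v)) := by
      apply tendsto_indicatorConstLp_set ENNReal.one_ne_top
      have e : ∀ n, t n ∆ s = s \ t n := by
        intro n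
        rw [symmDiff_def]
        have : t n \ s = ∅ := diff_eq_empty.2 inter_subset_left
        simp [this]
      simp only [e]
      have hanti : Antitone (fun n => s \ t n) := by
        intro m n hmn
        apply diff_subset_diff_right
        intro x hx
        exact ⟨hx.1, lt_of_lt_of_le hx.2 hmn⟩
      have := tendsto_measure_iInter_atTop (μ := ν) (s := fun n => s \ t n)
        (fun n => (MeasurableSet.of_discrete).nullMeasurableSet) hanti
        ⟨0, ((measure_mono diff_subset).trans_lt hsfin).ne⟩
      have h0 : ⋂ n, s \ t n = ∅ := by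
        ext x
        simp only [mem_iInter, mem_empty_iff_false, iff_false, not_forall]
        refine ⟨Encodable.encode x + 1, fun hx => hx.2 ⟨hx.1, ?_⟩⟩
        exact Nat.lt_succ_self _
      rw [h0, measure_empty] at this
      exact this
    exact le_of_tendsto_of_tendsto' ((T.continuous.tendsto _).comp hlim).norm
      (hlim.norm.const_mul C) hb
  · intro f g hf hg hdis h1 h2
    have hn : ‖hf.toLp f + hg.toLp g‖ = ‖hf.toLp f‖ + ‖hg.toLp g‖ := by
      rw [← MemLp.toLp_add, Lp.norm_toLp, Lp.norm_toLp, Lp.norm_toLp]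
      rw [← ENNReal.toReal_add hf.eLpNorm_ne_top hg.eLpNorm_ne_top]
      congr 1
      rw [eLpNorm_one_eq_lintegral_enorm, eLpNorm_one_eq_lintegral_enorm, eLpNorm_one_eq_lintegral_enorm,
        ← lintegral_add_left (measurable_of_countable _)]
      congr 1
      funext x
      by_cases hx : f x = 0
      · simp [hx]
      · have : g x = 0 := by
          by_contra hgx
          exact Set.disjoint_left.1 hdis hx hgx
        simp [this]
    rw [map_add, hn, mul_add]
    exact (norm_add_le _ _).trans (add_le_add h1 h2)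
  · exact isClosed_le (T.continuous.norm) (continuous_const.mul continuous_norm)

theorem exists_atom [Nontrivial E] (ν : Measure X) (hν : ∀ x : X, ν {x} ≠ ⊤) (hν0 : ν ≠ 0)
    (T : Lp E 1 ν →L[ℝ] Lp E 1 ν) :
    ∃ (ξ : Lp E 1 ν) (x : X), ξ ≠ 0 ∧ (∀ᵐ z ∂ν, z ∉ ({x} : Set X) → ξ z = 0) ∧
      (1 / 2) * ‖T‖ * ‖ξ‖ ≤ ‖T ξ‖ := by
  by_contra hcon
  push Not at hcon
  have hC : ∀ (x : X) (v : E), ‖T (indicatorConstLp 1 (measurableSet_singleton x) (hν x) v)‖ ≤
      ((1 / 2) * ‖T‖) * ‖indicatorConstLp 1 (measurableSet_singleton x) (hν x) v‖ := by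
    intro x v
    by_cases h0 : indicatorConstLp 1 (measurableSet_singleton x) (hν x) v = 0
    · rw [h0]; simp
    · refine (hcon _ x h0 ?_).le
      filter_upwards [indicatorConstLp_coeFn (p := 1) (hs := measurableSet_singleton x) (hμs := hν x)
        (c := v)] with z hz hzx
      rw [hz, indicator_of_notMem hzx]
  have h1 : ‖T‖ ≤ (1 / 2) * ‖T‖ := T.opNorm_le_bound (by positivity) (all_bound ν hν T _ hC)
  have h2 : ‖T‖ ≤ 0 := by linarith
  obtain ⟨x, hx⟩ : ∃ x : X, ν {x} ≠ 0 := by
    by_contra hall
    push Not at hall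
    apply hν0
    rw [← Measure.measure_univ_eq_zero, ← iUnion_of_singleton X]
    exact measure_iUnion_null hall
  obtain ⟨v, hv⟩ := exists_ne (0 : E)
  have hpos : 0 < ‖indicatorConstLp 1 (measurableSet_singleton x) (hν x) v‖ := by
    rw [norm_ind]
    exact mul_pos (norm_pos_iff.2 hv) (ENNReal.toReal_pos hx (hν x))
  have h3 := hcon (indicatorConstLp 1 (measurableSet_singleton x) (hν x) v) x (norm_pos_iff.1 hpos) (by
    filter_upwards [indicatorConstLp_coeFn (p := 1) (hs := measurableSet_singleton x) (hμs := hν x)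
        (c := v)] with z hz hzx
    rw [hz, indicator_of_notMem hzx])
  have h4 : ‖T‖ = 0 := le_antisymm h2 (norm_nonneg _)
  rw [h4] at h3
  simp only [mul_zero, zero_mul] at h3
  exact absurd h3 (not_lt.2 (norm_nonneg _))

end Pool.Agent.H810R3.Onl
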