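import Pool.Agent.H810R3.Onl.Box

set_option autoImplicit false

/-! The box space of the free group of rank two: a bounded geometry space without property A. -/

namespace Pool.Agent.H810R3.Onl

open Set Filter Topology

/-- the quotient maps -/
noncomputable def qm (n : ℕ) : F →* Equiv.Perm F := (exists_box n).choose

theorem qm_finite (n : ℕ) : (Set.range (qm n)).Finite := (exists_box n).choose_spec.1

theorem qm_apply (n : ℕ) (u : F) (hu : u.norm ≤ n) : qm n u 1 = u := (exists_box n).choose_spec.2 u hu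

/-- word length in the quotient -/
noncomputable def ell (n : ℕ) (g : Equiv.Perm F) : ℕ := sInf {k | ∃ u : F, u.norm = k ∧ qm n u = g}

theorem ell_le (n : ℕ) (u : F) : ell n (qm n u) ≤ u.norm := Nat.sInf_le ⟨u, rfl, rfl⟩

theorem exists_ell {n : ℕ} {g : Equiv.Perm F} (hg : g ∈ (qm n).range) :
    ∃ u : F, u.norm = ell n g ∧ qm n u = g := by
  obtain ⟨u, rfl⟩ := hg
  exact Nat.sInf_mem (s := {k | ∃ v : F, v.norm = k ∧ qm n v = qm n u}) ⟨u.norm, u, rfl, rfl⟩

theorem ell_one (n : ℕ) : ell n 1 = 0 := by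
  have := ell_le n 1
  rw [map_one, FreeGroup.norm_one] at this
  omega

theorem eq_one_of_ell {n : ℕ} {g : Equiv.Perm F} (hg : g ∈ (qm n).range) (h : ell n g = 0) : g = 1 := by
  obtain ⟨u, h1, h2⟩ := exists_ell hg
  rw [h, FreeGroup.norm_eq_zero] at h1
  rw [← h2, h1, map_one]

theorem ell_inv {n : ℕ} {g : Equiv.Perm F} (hg : g ∈ (qm n).range) : ell n g⁻¹ = ell n g := by
  have key : ∀ {g : Equiv.Perm F}, g ∈ (qm n).range → ell n g⁻¹ ≤ ell n g := by
    intro g hg
    obtain ⟨u, h1, h2⟩ := exists_ell hg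
    have := ell_le n u⁻¹
    rw [FreeGroup.norm_inv_eq, map_inv, h2, h1] at this
    exact this
  refine le_antisymm (key hg) ?_
  have := key (inv_mem hg)
  rwa [inv_inv] at this

theorem ell_mul {n : ℕ} {g h : Equiv.Perm F} (hg : g ∈ (qm n).range) (hh : h ∈ (qm n).range) :
    ell n (g * h) ≤ ell n g + ell n h := by
  obtain ⟨u, h1, h2⟩ := exists_ell hg
  obtain ⟨v, k1, k2⟩ := exists_ell hh
  have := ell_le n (u * v)
  rw [map_mul, h2, k2] at this
  refine this.trans ?_
  rw [← h1, ← k1]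
  exact FreeGroup.norm_mul_le u v

/-- the spacing constants -/
noncomputable def KC (n : ℕ) : ℕ := n + 1 + (qm_finite n).toFinset.sup (ell n)

theorem ell_le_KC {n : ℕ} {g : Equiv.Perm F} (hg : g ∈ (qm n).range) : ell n g ≤ KC n := by
  have h1 : g ∈ (qm_finite n).toFinset := by
    rw [Set.Finite.mem_toFinset]
    exact hg
  have := Finset.le_sup (f := ell n) h1
  unfold KC
  omega

theorem lt_KC (n : ℕ) : n < KC n := by unfold KC; omega

/-- The box space. -/
def XB : Type := {p : ℕ × Equiv.Perm F // p.2 ∈ (qm p.1).range}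

/-- constructor -/
def mkX (n : ℕ) (g : Equiv.Perm F) (hg : g ∈ (qm n).range) : XB := ⟨(n, g), hg⟩

/-- integer valued distance -/
noncomputable def dN (x y : XB) : ℕ :=
  if x.1.1 = y.1.1 then ell x.1.1 (x.1.2⁻¹ * y.1.2) else KC x.1.1 + KC y.1.1

theorem dN_same {n : ℕ} {g h : Equiv.Perm F} (hg : g ∈ (qm n).range) (hh : h ∈ (qm n).range) :
    dN ⟨(n, g), hg⟩ ⟨(n, h), hh⟩ = ell n (g⁻¹ * h) := by
  unfold dN
  exact if_pos rfl

theorem dN_diff {n m : ℕ} {g h : Equiv.Perm F} (hg : g ∈ (qm n).range) (hh : h ∈ (qm m).range)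
    (hnm : n ≠ m) : dN ⟨(n, g), hg⟩ ⟨(m, h), hh⟩ = KC n + KC m := by
  unfold dN
  exact if_neg hnm

theorem dN_self (x : XB) : dN x x = 0 := by
  obtain ⟨⟨n, g⟩, hg⟩ := x
  rw [dN_same, inv_mul_cancel, ell_one]

theorem dN_comm (x y : XB) : dN x y = dN y x := by
  obtain ⟨⟨n, g⟩, hg⟩ := x
  obtain ⟨⟨m, h⟩, hh⟩ := y
  by_cases hnm : n = m
  · subst hnm
    rw [dN_same, dN_same, ← ell_inv (mul_mem (inv_mem hg) hh), mul_inv_rev, inv_inv]
  · rw [dN_diff _ _ hnm, dN_diff _ _ (Ne.symm hnm), add_comm]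

theorem dN_triangle (x y z : XB) : dN x z ≤ dN x y + dN y z := by
  obtain ⟨⟨n, g⟩, hg⟩ := x
  obtain ⟨⟨m, h⟩, hh⟩ := y
  obtain ⟨⟨l, k⟩, hk⟩ := z
  by_cases h1 : n = m
  · subst h1
    by_cases h2 : n = l
    · subst h2
      rw [dN_same, dN_same, dN_same]
      have := ell_mul (n := n) (mul_mem (inv_mem hg) hh) (mul_mem (inv_mem hh) hk)
      have e : g⁻¹ * h * (h⁻¹ * k) = g⁻¹ * k := by group
      rwa [e] at this
    · rw [dN_diff _ _ h2, dN_diff _ _ h2]
      omega
  · by_cases h2 : m = l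
    · subst h2
      rw [dN_diff _ _ h1, dN_diff _ _ h1]
      omega
    · by_cases h3 : n = l
      · subst h3
        rw [dN_same, dN_diff _ _ h1, dN_diff _ _ h2]
        have : ell n (g⁻¹ * k) ≤ KC n := ell_le_KC (mul_mem (inv_mem hg) hk)
        omega
      · rw [dN_diff _ _ h1, dN_diff _ _ h2, dN_diff _ _ h3]
        omega

theorem eq_of_dN {x y : XB} (hxy : dN x y = 0) : x = y := by
  obtain ⟨⟨n, g⟩, hg⟩ := x
  obtain ⟨⟨m, h⟩, hh⟩ := y
  by_cases h1 : n = m
  · subst h1
    rw [dN_same] at hxy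
    have := eq_one_of_ell (mul_mem (inv_mem hg) hh) hxy
    rw [inv_mul_eq_one] at this
    subst this
    rfl
  · rw [dN_diff _ _ h1] at hxy
    have := lt_KC n
    omega

noncomputable instance : MetricSpace XB where
  dist x y := dN x y
  dist_self x := by rw [dN_self]; simp
  dist_comm x y := by rw [dN_comm]
  dist_triangle x y z := by
    have := dN_triangle x y z
    exact_mod_cast this
  eq_of_dist_eq_zero := by
    intro x y hxy
    apply eq_of_dN
    exact_mod_cast hxy

theorem dist_XB (x y : XB) : dist x y = dN x y := rfl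

noncomputable instance : MeasurableSpace XB := borel XB
instance : BorelSpace XB := ⟨rfl⟩

instance : DiscreteTopology XB := by
  refine DiscreteTopology.of_forall_le_dist (α := XB) (r := 1) one_pos ?_
  intro x y hxy
  rw [dist_XB]
  have : dN x y ≠ 0 := fun h => hxy (eq_of_dN h)
  exact_mod_cast Nat.one_le_iff_ne_zero.2 this

instance : Countable XB := by
  have hF : Countable F := by
    unfold F FreeGroup
    infer_instance
  let f : ℕ × F → XB := fun p => ⟨(p.1, qm p.1 p.2), ⟨p.2, rfl⟩⟩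
  refine Function.Surjective.countable (f := f) ?_
  rintro ⟨⟨n, g⟩, u, hu⟩
  exact ⟨(n, u), Subtype.ext (Prod.ext rfl hu)⟩

instance : DiscreteMeasurableSpace XB := ⟨fun s => (isOpen_discrete s).measurableSet⟩

theorem bounded_geometry (R : ℝ) (_ : 0 < R) : ∃ N : ℕ, ∀ x : XB,
    (Metric.ball x R).Finite ∧ (Metric.ball x R).ncard ≤ N := by
  obtain ⟨r, hr⟩ := exists_nat_gt R
  -- the initial components
  have hE : {p : XB | p.1.1 < r}.Finite := by
    have h1 : (⋃ m ∈ Set.Iio r, (Set.range (fun u : F => (⟨(m, qm m u), ⟨u, rfl⟩⟩ : XB)))).Finite := by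
      refine (Set.finite_lt_nat r).biUnion fun m _ => ?_
      have h2 : (Set.range (fun u : F => (⟨(m, qm m u), ⟨u, rfl⟩⟩ : XB))) ⊆
          (fun p : XB => p.1.2) ⁻¹' (Set.range (qm m)) ∩ {p | p.1.1 = m} := by
        rintro _ ⟨u, rfl⟩
        exact ⟨⟨u, rfl⟩, rfl⟩
      refine Set.Finite.subset ?_ h2
      refine Set.Finite.of_finite_image (f := fun p : XB => p.1.2) ?_ ?_
      · refine (qm_finite m).subset ?_
        rintro _ ⟨p, hp, rfl⟩
        exact hp.1
      · intro p hp q hq hpq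
        exact Subtype.ext (Prod.ext (hp.2.trans hq.2.symm) hpq)
    refine h1.subset ?_
    rintro ⟨⟨m, g⟩, u, hu⟩ hm
    simp only [mem_iUnion]
    exact ⟨m, hm, u, Subtype.ext (Prod.ext rfl hu)⟩
  refine ⟨{u : F | u.norm ≤ r}.ncard + {p : XB | p.1.1 < r}.ncard, fun x => ?_⟩
  obtain ⟨⟨n, g⟩, hg⟩ := x
  have hsub : Metric.ball (mkX n g hg) R ⊆
      ((fun u : F => (mkX n (g * qm n u) (mul_mem hg ⟨u, rfl⟩))) '' {u : F | u.norm ≤ r}) ∪
      {p : XB | p.1.1 < r} := by
    intro q hp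
    rw [Metric.mem_ball, dist_comm, dist_XB] at hp
    have hp2 : dN (mkX n g hg) q < r := by
      have := hp.trans hr
      exact_mod_cast this
    clear hp
    obtain ⟨⟨m, h⟩, hh⟩ := q
    change dN ⟨(n, g), hg⟩ ⟨(m, h), hh⟩ < r at hp2
    by_cases h1 : n = m
    · subst h1
      left
      rw [dN_same] at hp2
      obtain ⟨u, h2, h3⟩ := exists_ell (mul_mem (inv_mem hg) hh)
      refine ⟨u, (by rw [← h2] at hp2; exact hp2.le), ?_⟩
      apply Subtype.ext
      show (n, g * qm n u) = (n, h)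
      rw [h3]
      simp
    · right
      rw [dN_diff _ _ h1] at hp2
      show m < r
      have := lt_KC m
      omega
  have hfin : (((fun u : F => (mkX n (g * qm n u) (mul_mem hg ⟨u, rfl⟩))) '' {u : F | u.norm ≤ r}) ∪
      {p : XB | p.1.1 < r}).Finite := ((finite_ball r).image _).union hE
  refine ⟨hfin.subset hsub, ?_⟩
  refine (Set.ncard_le_ncard hsub hfin).trans ?_
  refine (Set.ncard_union_le _ _).trans ?_
  exact Nat.add_le_add_right (Set.ncard_image_le (finite_ball r)) _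

end Pool.Agent.H810R3.Onl
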